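import Pool.Agent.Run7.h341.CTF.Defs

/-!
# A criterion for finite presentation
-/

set_option autoImplicit false

noncomputable section

open scoped Classical

namespace Pool.Agent.Run7.h587.CTF

open Pool.Agent.Run7.h341.CTF

section

variable {G : Type} [Group G] (T : Finset G)

/-- the generator belonging to `g` -/
def X (g : G) : FreeGroup (Fin T.card) := if h : g ∈ T then FreeGroup.of (T.equivFin ⟨g, h⟩) else 1

/-- the map from the free group -/
def th : FreeGroup (Fin T.card) →* G := FreeGroup.lift fun i => ((T.equivFin.symm i : T) : G)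

theorem th_X {g : G} (hg : g ∈ T) : th T (X T g) = g := by
  unfold th X
  rw [dif_pos hg, FreeGroup.lift_apply_of, Equiv.symm_apply_apply]

omit [Group G] in
theorem X_symm (i : Fin T.card) : X T ((T.equivFin.symm i : T) : G) = FreeGroup.of i := by
  unfold X
  rw [dif_pos (T.equivFin.symm i).2]
  simp

/-- the relations -/
def R : Finset (FreeGroup (Fin T.card)) :=
  ((T ×ˢ T).filter fun ab => ab.1 * ab.2 ∈ T).image
    fun ab => X T ab.1 * X T ab.2 * (X T (ab.1 * ab.2))⁻¹

theorem fp_of (hgen : Subgroup.closure (T : Set G) = ⊤)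
    (hΦ : ∀ (H : Type) [Group H] (x : G → H),
      (∀ a ∈ T, ∀ b ∈ T, a * b ∈ T → x a * x b = x (a * b)) →
      ∃ Φ : G → H, ∀ s ∈ T, ∀ h, x s = (Φ h)⁻¹ * Φ (h * s)) : FP G := by
  refine ⟨T.card, th T, ?_, R T, le_antisymm ?_ ?_⟩
  · rw [← MonoidHom.range_eq_top, eq_top_iff, ← hgen, Subgroup.closure_le]
    intro g hg
    exact ⟨X T g, th_X T hg⟩
  · set Nm := Subgroup.normalClosure (R T : Set (FreeGroup (Fin T.card))) with hNm
    have hrel : ∀ a ∈ T, ∀ b ∈ T, a * b ∈ T →
        ((X T a : FreeGroup (Fin T.card) ⧸ Nm)) * (X T b : FreeGroup (Fin T.card) ⧸ Nm) =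
          (X T (a * b) : FreeGroup (Fin T.card) ⧸ Nm) := by
      intro a ha b hb hab
      have h1 : X T a * X T b * (X T (a * b))⁻¹ ∈ Nm := by
        apply Subgroup.subset_normalClosure
        rw [Finset.mem_coe, R, Finset.mem_image]
        exact ⟨(a, b), Finset.mem_filter.2 ⟨Finset.mem_product.2 ⟨ha, hb⟩, hab⟩, rfl⟩
      have h2 := (QuotientGroup.eq_one_iff _).2 h1
      rw [QuotientGroup.mk_mul, QuotientGroup.mk_inv, mul_inv_eq_one, QuotientGroup.mk_mul] at h2
      exact h2
    obtain ⟨Φ, h⟩ := hΦ (FreeGroup (Fin T.card) ⧸ Nm) (fun g => (X T g : _ ⧸ Nm)) hrel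
    have key : ∀ w : FreeGroup (Fin T.card), ∀ g : G,
        (w : FreeGroup (Fin T.card) ⧸ Nm) = (Φ g)⁻¹ * Φ (g * th T w) := by
      intro w
      induction w using FreeGroup.induction_on with
      | C1 =>
        intro g
        rw [map_one, mul_one, inv_mul_cancel]
        rfl
      | of i =>
        intro g
        have h1 := h _ (T.equivFin.symm i).2 g
        rw [X_symm] at h1
        have h2 : th T (FreeGroup.of i) = ((T.equivFin.symm i : T) : G) := by
          unfold th
          rw [FreeGroup.lift_apply_of]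
        rw [h2]
        exact h1
      | inv_of i hi =>
        intro g
        have h1 := hi (g * (th T (FreeGroup.of i))⁻¹)
        rw [inv_mul_cancel_right] at h1
        rw [map_inv, QuotientGroup.mk_inv, h1, mul_inv_rev, inv_inv]
      | mul x y hx hy =>
        intro g
        rw [QuotientGroup.mk_mul, hx g, hy (g * th T x), map_mul, mul_assoc g]
        group
    intro w hw
    rw [MonoidHom.mem_ker] at hw
    have h1 := key w 1
    rw [hw, mul_one, inv_mul_cancel] at h1
    exact (QuotientGroup.eq_one_iff _).1 h1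
  · refine Subgroup.normalClosure_le_normal ?_
    intro r hr
    rw [Finset.mem_coe, R, Finset.mem_image] at hr
    obtain ⟨⟨a, b⟩, hab, rfl⟩ := hr
    obtain ⟨h1, h2⟩ := Finset.mem_filter.1 hab
    obtain ⟨ha, hb⟩ := Finset.mem_product.1 h1
    rw [SetLike.mem_coe, MonoidHom.mem_ker, map_mul, map_mul, map_inv, th_X T ha, th_X T hb,
      th_X T h2, mul_inv_cancel]

end

end Pool.Agent.Run7.h587.CTF
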