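import Pool.Agent.Run7.h341.CTF.Base
import Pool.Agent.Run7.h587.CTF.Abs

/-!
# The action of `G S` on frames and paths between frames of bounded rank
-/

set_option autoImplicit false

noncomputable section

open scoped Classical

namespace Pool.Agent.Run7.h587.CTF

open Pool.Agent.Run7.h341.CTF Equiv

variable {S : Finset ℕ}

theorem adm (hS : PS S) : Pool.Agent.Helper111.CT.Adm (Sm S) where
  one := Sm.one
  two := by
    have h := Sm.prime hS hS.two
    exact_mod_cast h
  mul _ _ ha hb := Sm.mul ha hb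

theorem mem_G_iff (hS : PS S) (g : Perm ℤ) : g ∈ G S ↔ PC S (g : ℤ → ℤ) := by
  unfold G
  rw [Pool.Agent.Helper111.CT.mem_CTg_iff (adm hS)]
  constructor
  · rintro ⟨M, -, hM, h⟩
    refine ⟨g.injective, M, hM, fun i hi0 hi1 => ?_⟩
    obtain ⟨c, m, hc0, hc1, hm, hg⟩ := h i hi0 hi1
    exact ⟨m, c, hm, hc0, hc1, funext fun k => hg k⟩
  · rintro ⟨-, M, hM, h⟩
    refine ⟨M, hM.pos, hM, fun i hi0 hi1 => ?_⟩
    obtain ⟨m, c, hm, hc0, hc1, hg⟩ := h i hi0 hi1
    exact ⟨c, m, hc0, hc1, hm, fun k => congrFun hg k⟩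

/-- the function of an element of the group -/
def fn (g : G S) : ℤ → ℤ := ((g : Perm ℤ) : ℤ → ℤ)

theorem fn_inj (g : G S) : Function.Injective (fn g) := (g : Perm ℤ).injective

theorem fn_surj (g : G S) : Function.Surjective (fn g) := (g : Perm ℤ).surjective

theorem fn_one : fn (1 : G S) = id := rfl

theorem fn_mul (g h : G S) : fn (g * h) = fn g ∘ fn h := rfl

theorem fn_ext {g h : G S} (e : fn g = fn h) : g = h :=
  Subtype.ext (Equiv.ext fun x => congrFun e x)

theorem pc_fn (hS : PS S) (g : G S) : PC S (fn g) := (mem_G_iff hS _).1 g.2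

/-- the action -/
def act (g : G S) (v : V) : V := v.image fun f => fn g ∘ f

theorem comp_inj (g : G S) : Function.Injective fun f : ℤ → ℤ => fn g ∘ f := by
  intro a b h
  funext x
  exact fn_inj g (congrFun h x)

theorem mem_act {g : G S} {v : V} {a : ℤ → ℤ} : a ∈ act g v ↔ ∃ f ∈ v, fn g ∘ f = a := by
  unfold act
  rw [Finset.mem_image]

theorem mem_act_comp {g : G S} {v : V} {f : ℤ → ℤ} : fn g ∘ f ∈ act g v ↔ f ∈ v := by
  rw [mem_act]
  constructor
  · rintro ⟨f', hf', e⟩
    rwa [← comp_inj g e]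
  · intro h
    exact ⟨f, h, rfl⟩

theorem act_one (v : V) : act (1 : G S) v = v := by
  unfold act
  simp [fn_one]

theorem act_mul (g h : G S) (v : V) : act (g * h) v = act g (act h v) := by
  unfold act
  rw [Finset.image_image]
  rfl

theorem card_act (g : G S) (v : V) : (act g v).card = v.card :=
  Finset.card_image_of_injective _ (comp_inj g)

theorem frame_act (hS : PS S) (g : G S) {v : V} (hv : Frame S v) : Frame S (act g v) where
  pc := by
    intro a ha
    obtain ⟨f, hf, rfl⟩ := mem_act.1 ha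
    exact (pc_fn hS g).comp (hv.pc f hf)
  cov := by
    intro x
    obtain ⟨x', rfl⟩ := fn_surj g x
    obtain ⟨f, hf, y, rfl⟩ := hv.cov x'
    exact ⟨fn g ∘ f, mem_act_comp.2 hf, y, rfl⟩
  dis := by
    intro a ha b hb y z h
    obtain ⟨f, hf, rfl⟩ := mem_act.1 ha
    obtain ⟨f', hf', rfl⟩ := mem_act.1 hb
    rw [hv.dis f hf f' hf' y z (fn_inj g h)]

theorem act_ch (g : G S) (f : ℤ → ℤ) (p : ℕ) : act g (ch f p) = ch (fn g ∘ f) p := by
  unfold act ch
  rw [Finset.image_image]
  rfl

theorem act_split (g : G S) (v : V) (f : ℤ → ℤ) (p : ℕ) :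
    act g (split v f p) = split (act g v) (fn g ∘ f) p := by
  unfold split
  rw [← act_ch]
  unfold act
  rw [Finset.image_union, Finset.image_erase (comp_inj g)]

/-- the one-point frames -/
def pt (g : G S) : V := {fn g}

theorem act_pt (g h : G S) : act g (pt h) = pt (g * h) := by
  unfold act pt
  rw [Finset.image_singleton, fn_mul]

theorem card_pt (g : G S) : (pt g).card = 1 := Finset.card_singleton _

theorem pt_inj {g h : G S} (e : pt g = pt h) : g = h := fn_ext (Finset.singleton_injective e)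

theorem frame_pt (hS : PS S) (g : G S) : Frame S (pt g) := by
  have h : pt g = act g {id} := by
    unfold pt act
    rw [Finset.image_singleton]
    rfl
  rw [h]
  exact frame_act hS g frame_id

theorem exists_pt (hS : PS S) {v : V} (hv : Frame S v) (hc : v.card = 1) : ∃ g : G S, v = pt g := by
  obtain ⟨f, rfl⟩ := Finset.card_eq_one.1 hc
  have hf : PC S f := hv.pc f (Finset.mem_singleton_self f)
  have hsurj : Function.Surjective f := by
    intro x
    obtain ⟨f', hf', y, hy⟩ := hv.cov x
    rw [Finset.mem_singleton] at hf'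
    subst hf'
    exact ⟨y, hy⟩
  refine ⟨⟨Equiv.ofBijective f ⟨hf.inj, hsurj⟩, ?_⟩, ?_⟩
  · rw [mem_G_iff hS]
    exact hf
  · rfl

theorem card_pos {v : V} (hv : Frame S v) : 0 < v.card := by
  obtain ⟨f, hf, -⟩ := hv.cov 0
  exact Finset.card_pos.2 ⟨f, hf⟩

/-! ### paths -/

/-- frames of rank at most `N` -/
def Good (S : Finset ℕ) (N : ℕ) (v : V) : Prop := Frame S v ∧ v.card ≤ N

/-- `w` is a split of `u` and has rank at most `N` -/
def Ed (S : Finset ℕ) (N : ℕ) (u w : V) : Prop :=
  ∃ f p, Frame S u ∧ f ∈ u ∧ p ∈ S ∧ w = split u f p ∧ w.card ≤ N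

def Adj (S : Finset ℕ) (N : ℕ) (u w : V) : Prop := Ed S N u w ∨ Ed S N w u

def Near (S : Finset ℕ) (N : ℕ) : ℕ → V → V → Prop
  | 0, v, w => v = w
  | k + 1, v, w => Near S N k v w ∨ ∃ u, Near S N k v u ∧ Adj S N u w

variable {N : ℕ}

theorem Ed.good (hS : PS S) {u w : V} (h : Ed S N u w) : Good S N u ∧ Good S N w := by
  obtain ⟨f, p, hu, hf, hp, rfl, hc⟩ := h
  have h1 := card_split hS hu hf hp
  have h2 := (hS.prime p hp).two_le
  exact ⟨⟨hu, by omega⟩, frame_split hS hu hf hp, hc⟩

theorem Adj.good (hS : PS S) {u w : V} (h : Adj S N u w) : Good S N u ∧ Good S N w := by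
  rcases h with h | h
  · exact h.good hS
  · exact (h.good hS).symm

theorem Adj.symm {u w : V} (h : Adj S N u w) : Adj S N w u := Or.symm h

theorem Near.refl (k : ℕ) (v : V) : Near S N k v v := by
  induction k with
  | zero => exact rfl
  | succ k ih => exact Or.inl ih

theorem Near.mono {k l : ℕ} (hkl : k ≤ l) {v w : V} (h : Near S N k v w) : Near S N l v w := by
  induction l, hkl using Nat.le_induction with
  | base => exact h
  | succ l _ ih => exact Or.inl ih

theorem Near.trans {k l : ℕ} {u v w : V} (h1 : Near S N k u v) (h2 : Near S N l v w) :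
    Near S N (k + l) u w := by
  induction l generalizing w with
  | zero =>
    have e : v = w := h2
    rwa [← e]
  | succ l ih =>
    rcases h2 with h2 | ⟨t, h2, h3⟩
    · exact Or.inl (ih h2)
    · exact Or.inr ⟨t, ih h2, h3⟩

theorem near_one {u w : V} (h : Adj S N u w) : Near S N 1 u w := Or.inr ⟨u, rfl, h⟩

theorem Near.symm {k : ℕ} {v w : V} (h : Near S N k v w) : Near S N k w v := by
  induction k generalizing w with
  | zero => exact Eq.symm h
  | succ k ih =>
    rcases h with h | ⟨t, h1, h2⟩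
    · exact Or.inl (ih h)
    · rw [Nat.add_comm]
      exact (near_one h2.symm).trans (ih h1)

theorem Near.good (hS : PS S) {k : ℕ} {v w : V} (h : Near S N k v w) (hv : Good S N v) :
    Good S N w := by
  induction k generalizing w with
  | zero =>
    have e : v = w := h
    rwa [← e]
  | succ k ih =>
    rcases h with h | ⟨t, -, h2⟩
    · exact ih h
    · exact (h2.good hS).2

theorem Near.split {k l : ℕ} {v w : V} (h : Near S N (k + l) v w) :
    ∃ u, Near S N k v u ∧ Near S N l u w := by
  induction l generalizing w with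
  | zero => exact ⟨w, h, rfl⟩
  | succ l ih =>
    rcases h with h | ⟨t, h1, h2⟩
    · obtain ⟨u, h3, h4⟩ := ih h
      exact ⟨u, h3, Or.inl h4⟩
    · obtain ⟨u, h3, h4⟩ := ih h1
      exact ⟨u, h3, Or.inr ⟨t, h4, h2⟩⟩

theorem Ed.act (hS : PS S) (g : G S) {u w : V} (h : Ed S N u w) :
    Ed S N (act g u) (CTF.act g w) := by
  obtain ⟨f, p, hu, hf, hp, rfl, hc⟩ := h
  exact ⟨fn g ∘ f, p, frame_act hS g hu, mem_act_comp.2 hf, hp, act_split g u f p,
    by rwa [card_act]⟩

theorem Adj.act (hS : PS S) (g : G S) {u w : V} (h : Adj S N u w) :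
    Adj S N (act g u) (CTF.act g w) := by
  rcases h with h | h
  · exact Or.inl (h.act hS g)
  · exact Or.inr (h.act hS g)

theorem Near.act (hS : PS S) (g : G S) {k : ℕ} {u w : V} (h : Near S N k u w) :
    Near S N k (act g u) (CTF.act g w) := by
  induction k generalizing w with
  | zero => exact congrArg (CTF.act g) h
  | succ k ih =>
    rcases h with h | ⟨t, h1, h2⟩
    · exact Or.inl (ih h)
    · exact Or.inr ⟨CTF.act g t, ih h1, h2.act hS g⟩

theorem near_pt_iff (hS : PS S) (g a b : G S) {k : ℕ} (h : Near S N k (pt a) (pt b)) :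
    Near S N k (pt (g * a)) (pt (g * b)) := by
  have := h.act hS g
  rwa [act_pt, act_pt] at this

theorem near_pt_one (hS : PS S) {a b : G S} {k : ℕ} (h : Near S N k (pt a) (pt b)) :
    Near S N k (pt (1 : G S)) (pt (a⁻¹ * b)) := by
  have := near_pt_iff hS a⁻¹ a b h
  rwa [inv_mul_cancel] at this

theorem ed_mrg (hS : PS S) {w : V} (hw : Frame S w) {f : ℤ → ℤ} (hf : PC S f) {p : ℕ}
    (hp : p ∈ S) (h : ch f p ⊆ w) (hN : w.card ≤ N) : Ed S N (mrg w f p) w :=
  ⟨f, p, frame_mrg hS hw hf hp h, mem_mrg.2 (Or.inl rfl), hp, (split_mrg hS hw hf hp h).symm, hN⟩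

theorem ed_split {v : V} (hv : Frame S v) {f : ℤ → ℤ} (hf : f ∈ v) {p : ℕ} (hp : p ∈ S)
    (h : (split v f p).card ≤ N) : Ed S N v (split v f p) := ⟨f, p, hv, hf, hp, rfl, h⟩

/-! ### finiteness -/

theorem finite_parents (hS : PS S) (w : V) {p : ℕ} (hp : p ∈ S) :
    {f : ℤ → ℤ | ch f p ⊆ w}.Finite := by
  have hpos : 0 < p := (hS.prime p hp).pos
  let Ψ : {f : ℤ → ℤ | ch f p ⊆ w} → (Fin p → w) := fun f j =>
    ⟨f.1 ∘ cn (p : ℤ) (j : ℕ), f.2 (mem_ch.2 ⟨j, j.2, rfl⟩)⟩
  have hΨ : Function.Injective Ψ := by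
    intro a b hab
    apply Subtype.ext
    refine eq_of_children hpos fun j hj => ?_
    have := congrFun hab ⟨j, hj⟩
    exact congrArg Subtype.val this
  have : Finite {f : ℤ → ℤ | ch f p ⊆ w} := Finite.of_injective Ψ hΨ
  exact Set.toFinite _

theorem finite_adj (hS : PS S) (v : V) : {w | Adj S N v w}.Finite := by
  have h1 : {w | Ed S N v w}.Finite := by
    refine Set.Finite.subset (((v ×ˢ S).image fun fp => Pool.Agent.Run7.h341.CTF.split v fp.1 fp.2).finite_toSet) ?_
    rintro w ⟨f, p, hv, hf, hp, rfl, -⟩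
    rw [Finset.mem_coe, Finset.mem_image]
    exact ⟨(f, p), Finset.mem_product.2 ⟨hf, hp⟩, rfl⟩
  have h2 : {w | Ed S N w v}.Finite := by
    have h3 : (⋃ p ∈ S, (fun f => mrg v f p) '' {f : ℤ → ℤ | ch f p ⊆ v}).Finite := by
      refine Set.Finite.biUnion S.finite_toSet fun p hp => ?_
      exact (finite_parents hS v (Finset.mem_coe.1 hp)).image _
    refine Set.Finite.subset h3 ?_
    rintro w ⟨f, p, hw, hf, hp, rfl, -⟩
    simp only [Set.mem_iUnion, Set.mem_image, Set.mem_ofPred_eq]
    exact ⟨p, hp, f, ch_sub_split, mrg_split hS hw hf hp⟩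
  exact (h1.union h2).subset fun w hw => hw

theorem finite_near (hS : PS S) (k : ℕ) (v : V) : {w | Near S N k v w}.Finite := by
  induction k with
  | zero => exact (Set.finite_singleton v).subset fun w hw => Eq.symm hw
  | succ k ih =>
    have h := ih.biUnion fun u _ => finite_adj (N := N) hS u
    refine (ih.union h).subset ?_
    rintro w (hw | ⟨u, h1, h2⟩)
    · exact Or.inl hw
    · refine Or.inr ?_
      simp only [Set.mem_iUnion]
      exact ⟨u, h1, h2⟩

theorem finite_sig (hS : PS S) (D : ℕ) : {g : G S | Near S N D (pt (1 : G S)) (pt g)}.Finite :=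
  (finite_near (N := N) hS D (pt (1 : G S))).preimage (fun _ _ _ _ h => pt_inj h)

/-! ### the retraction -/

theorem exists_near_pt (hS : PS S) (n : ℕ) : ∀ v : V, Frame S v → v.card = n → n ≤ N →
    ∃ g : G S, Near S N n v (pt g) := by
  induction n with
  | zero =>
    intro v hv h0 _
    have := card_pos hv
    omega
  | succ n ih =>
    intro v hv hn hN
    rcases Nat.eq_zero_or_pos n with rfl | hpos
    · obtain ⟨g, rfl⟩ := exists_pt hS hv hn
      exact ⟨g, Near.refl _ _⟩
    · obtain ⟨a, ha, b, hb, hab⟩ := Finset.one_lt_card.1 (show 1 < v.card by omega)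
      obtain ⟨m, hm, hch⟩ := exists_merge hS hv ha hb hab
      have hsub : ch m 2 ⊆ v := by
        rw [hch]
        intro x hx
        rw [Finset.mem_insert, Finset.mem_singleton] at hx
        rcases hx with rfl | rfl
        · exact ha
        · exact hb
      have hed := ed_mrg (N := N) hS hv hm hS.two hsub (by omega)
      have hc := card_mrg hS hv hm hS.two hsub
      obtain ⟨g, hg⟩ := ih (mrg v m 2) (frame_mrg hS hv hm hS.two hsub) (by omega) (by omega)
      refine ⟨g, ?_⟩
      rw [Nat.add_comm]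
      exact (near_one (Or.inr hed)).trans hg

/-- a group element near the frame `v` -/
def gam (S : Finset ℕ) (N : ℕ) (v : V) : G S :=
  if h : ∃ g : G S, v = pt g then h.choose
  else if h : ∃ g : G S, Near S N N v (pt g) then h.choose else 1

theorem gam_pt (g : G S) : gam S N (pt g) = g := by
  unfold gam
  have h : ∃ g' : G S, pt g = pt g' := ⟨g, rfl⟩
  rw [dif_pos h]
  exact (pt_inj h.choose_spec).symm

theorem near_gam (hS : PS S) {v : V} (hv : Good S N v) : Near S N N v (pt (gam S N v)) := by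
  by_cases h : ∃ g : G S, v = pt g
  · obtain ⟨g, rfl⟩ := h
    rw [gam_pt]
    exact Near.refl _ _
  · unfold gam
    rw [dif_neg h]
    have h' : ∃ g : G S, Near S N N v (pt g) := by
      obtain ⟨g, hg⟩ := exists_near_pt (N := N) hS v.card v hv.1 rfl hv.2
      exact ⟨g, hg.mono hv.2⟩
    rw [dif_pos h']
    exact h'.choose_spec

/-- the difference of the group elements near two near frames -/
theorem near_dif (hS : PS S) {k : ℕ} {v w : V} (hv : Good S N v) (h : Near S N k v w) :
    Near S N (k + 2 * N) (pt (1 : G S)) (pt ((gam S N v)⁻¹ * gam S N w)) := by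
  apply near_pt_one hS
  have h1 := (near_gam hS hv).symm
  have h2 := near_gam hS (h.good hS hv)
  exact ((h1.trans h).trans h2).mono (by omega)

end Pool.Agent.Run7.h587.CTF
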