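import Pool.Agent.Run7.h587.CTF.Act

/-!
# The Rips type argument: `G S` is finitely presented
-/

set_option autoImplicit false

noncomputable section

open scoped Classical

namespace Pool.Agent.Run7.h587.CTF

open Pool.Agent.Run7.h341.CTF Equiv

variable {S : Finset ℕ} {N : ℕ}

section conn

variable {H : Type} [Group H] (x : G S → H) (D : ℕ)

/-- the relations of length `3` in the ball of radius `D` -/
def Rel (S : Finset ℕ) (N : ℕ) {H : Type} [Group H] (x : G S → H) (D : ℕ) : Prop :=
  ∀ a b : G S, Near S N D (pt (1 : G S)) (pt a) → Near S N D (pt (1 : G S)) (pt b) →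
    Near S N D (pt (1 : G S)) (pt (a * b)) → x a * x b = x (a * b)

/-- the connection -/
def phi (S : Finset ℕ) (N : ℕ) {H : Type} [Group H] (x : G S → H) (v w : V) : H :=
  x ((gam S N v)⁻¹ * gam S N w)

variable {x D}

theorem Rel.one (hx : Rel S N x D) : x 1 = 1 := by
  have h := hx 1 1 (Near.refl _ _) (Near.refl _ _) (by rw [mul_one]; exact Near.refl _ _)
  rw [mul_one] at h
  exact mul_left_cancel (h.trans (mul_one _).symm)

theorem phi_trans (hS : PS S) (hx : Rel S N x D) {k l : ℕ} (hkl : k + l + 2 * N ≤ D) {u v w : V}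
    (hu : Good S N u) (h1 : Near S N k u v) (h2 : Near S N l v w) :
    phi S N x u v * phi S N x v w = phi S N x u w := by
  have hv := h1.good hS hu
  have e : (gam S N u)⁻¹ * gam S N w =
      ((gam S N u)⁻¹ * gam S N v) * ((gam S N v)⁻¹ * gam S N w) := by group
  unfold phi
  rw [e]
  apply hx
  · exact (near_dif hS hu h1).mono (by omega)
  · exact (near_dif hS hv h2).mono (by omega)
  · rw [← e]
    exact (near_dif hS hu (h1.trans h2)).mono (by omega)

theorem phi_self (hx : Rel S N x D) (v : V) : phi S N x v v = 1 := by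
  unfold phi
  rw [inv_mul_cancel]
  exact hx.one

theorem phi_symm (hS : PS S) (hx : Rel S N x D) {k : ℕ} (hk : 2 * k + 2 * N ≤ D) {u v : V}
    (hu : Good S N u) (h1 : Near S N k u v) : phi S N x u v = (phi S N x v u)⁻¹ := by
  have h := phi_trans hS hx (k := k) (l := k) (by omega) hu h1 h1.symm
  rw [phi_self hx] at h
  exact eq_inv_of_mul_eq_one_left h

theorem sqFlat (hS : PS S) (hx : Rel S N x D) (hD : 2 + 2 * N ≤ D) :
    SqFlat S (phi S N x) N := by
  intro w hw hc f p g q hf hp hfw hg hq hgw hd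
  have e1 := ed_mrg hS hw hf hp hfw hc
  have e2 := ed_mrg hS hw hg hq hgw hc
  have e3 : Ed S N (mrg (mrg w f p) g q) (mrg w f p) :=
    ed_mrg hS (e1.good hS).1.1 hg hq (ch_sub_mrg hgw hd) (e1.good hS).1.2
  have e4 : Ed S N (mrg (mrg w g q) f p) (mrg w g q) :=
    ed_mrg hS (e2.good hS).1.1 hf hp (ch_sub_mrg hfw hd.symm) (e2.good hS).1.2
  rw [← mrg_comm hS hw hf hg hp hq hfw hgw hd] at e4
  rw [phi_trans hS hx (k := 1) (l := 1) (by omega) (e3.good hS).1 (near_one (Or.inl e3))
      (near_one (Or.inl e1)),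
    phi_trans hS hx (k := 1) (l := 1) (by omega) (e3.good hS).1 (near_one (Or.inl e4))
      (near_one (Or.inl e2))]

theorem walk (hS : PS S) (hx : Rel S N x D) {q : ℕ} (hq : q ∈ S) (l : List (ℤ → ℤ)) :
    ∀ (j : ℕ) (v₀ v : V), j + l.length + 2 * N ≤ D → Good S N v₀ → Near S N j v₀ v → Frame S v →
      l.Nodup → (∀ a ∈ l, a ∈ v) → v.card + q * l.length ≤ N + l.length →
      phi S N x v₀ v * runH (phi S N x) q v l = phi S N x v₀ (runV q v l) := by
  induction l with
  | nil =>
    intro j v₀ v _ _ _ _ _ _ _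
    exact mul_one _
  | cons a l ih =>
    intro j v₀ v hD h0 hn hv hnd hl hc
    have hq1 : 1 ≤ q := (hS.prime q hq).one_lt.le
    have ha : a ∈ v := hl a List.mem_cons_self
    have hcs := card_split hS hv ha hq
    rw [List.length_cons] at hD hc
    have hql : l.length ≤ q * l.length := Nat.le_mul_of_pos_left _ hq1
    have hc' : (Pool.Agent.Run7.h341.CTF.split v a q).card + q * l.length ≤ N + l.length := by
      have : q * (l.length + 1) = q * l.length + q := by ring
      omega
    have hed : Ed S N v (Pool.Agent.Run7.h341.CTF.split v a q) :=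
      ed_split hv ha hq (by omega)
    change phi S N x v₀ v * (phi S N x v (Pool.Agent.Run7.h341.CTF.split v a q) *
      runH (phi S N x) q (Pool.Agent.Run7.h341.CTF.split v a q) l) = _
    rw [← mul_assoc, phi_trans hS hx (k := j) (l := 1) (by omega) h0 hn (near_one (Or.inl hed))]
    obtain ⟨hal, hnd'⟩ := List.nodup_cons.1 hnd
    refine ih (j + 1) v₀ _ (by omega) h0 (hn.trans (near_one (Or.inl hed)))
      (frame_split hS hv ha hq) hnd' ?_ hc'
    intro b hb
    exact mem_split_of_ne (hl b (List.mem_cons_of_mem a hb)) fun h => hal (h ▸ hb)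

theorem diFlat (hS : PS S) (hx : Rel S N x D) (hD : ∀ p ∈ S, 1 + p + 2 * N ≤ D) :
    DiFlat S (phi S N x) N := by
  have key : ∀ (v : V) (f : ℤ → ℤ) (p q : ℕ), Frame S v → f ∈ v → p ∈ S → q ∈ S →
      v.card + p * q ≤ N + 1 →
      phi S N x v (Pool.Agent.Run7.h341.CTF.split v f p) *
        runH (phi S N x) q (Pool.Agent.Run7.h341.CTF.split v f p) (chl f p) =
      phi S N x v (runV q (Pool.Agent.Run7.h341.CTF.split v f p) (chl f p)) := by
    intro v f p q hv hf hp hq hc
    have hq1 : 1 ≤ q := (hS.prime q hq).one_lt.le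
    have hp1 : 1 ≤ p := (hS.prime p hp).one_lt.le
    have hlen : (chl f p).length = p := by
      simp [chl]
    have hcs := card_split hS hv hf hp
    have hpq : p ≤ p * q := Nat.le_mul_of_pos_right _ hq1
    have hed : Ed S N v (Pool.Agent.Run7.h341.CTF.split v f p) := ed_split hv hf hp (by omega)
    refine walk hS hx hq (chl f p) 1 v _ ?_ (hed.good hS).1 (near_one (Or.inl hed))
      (frame_split hS hv hf hp) (nodup_chl (hv.pc f hf).inj p) ?_ ?_
    · rw [hlen]
      exact hD p hp
    · intro a ha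
      exact ch_sub_split (mem_chl.1 ha)
    · rw [hlen, Nat.mul_comm q p]
      omega
  intro v f p q hv hf hp hq _ hc
  rw [key v f p q hv hf hp hq hc, key v f q p hv hf hq hp (by rwa [Nat.mul_comm]),
    runV_diamond hS hv hf hp hq]

/-- a potential of the connection on edges is one on near pairs -/
theorem phi_eq (hS : PS S) (hx : Rel S N x D) {F : V → H}
    (hF : ∀ u w, Ed S N u w → phi S N x u w = (F u)⁻¹ * F w) {k : ℕ} (hk : k + 1 + 2 * N ≤ D)
    {u w : V} (hu : Good S N u) (h : Near S N k u w) : phi S N x u w = (F u)⁻¹ * F w := by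
  induction k generalizing w with
  | zero =>
    have e : u = w := h
    rw [← e, phi_self hx, inv_mul_cancel]
  | succ k ih =>
    rcases h with h | ⟨t, h1, h2⟩
    · exact ih (by omega) h
    · have ht := h1.good hS hu
      have e : phi S N x t w = (F t)⁻¹ * F w := by
        rcases h2 with h2 | h2
        · exact hF t w h2
        · rw [phi_symm hS hx (k := 1) (by omega) ht (near_one (Or.inr h2)), hF w t h2]
          group
      rw [← phi_trans hS hx (k := k) (l := 1) (by omega) hu h1 (near_one h2), ih (by omega) h1, e]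
      group

theorem good_pt (hS : PS S) (hN : 1 ≤ N) (g : G S) : Good S N (pt g) :=
  ⟨frame_pt hS g, by rw [card_pt]; exact hN⟩

theorem x_small (hS : PS S) (hN : 1 ≤ N) (hx : Rel S N x D) {F : V → H}
    (hF : ∀ u w, Ed S N u w → phi S N x u w = (F u)⁻¹ * F w) {k : ℕ} (hk : k + 1 + 2 * N ≤ D)
    {s : G S} (h : Near S N k (pt (1 : G S)) (pt s)) (g : G S) :
    x s = (F (pt g))⁻¹ * F (pt (g * s)) := by
  have h1 := near_pt_iff hS g 1 s h
  rw [mul_one] at h1
  have h2 := phi_eq hS hx hF hk (good_pt hS hN g) h1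
  rw [← h2]
  unfold phi
  rw [gam_pt, gam_pt, inv_mul_cancel_left]

theorem x_gam (hS : PS S) (hN : 1 ≤ N) (hx : Rel S N x D) {F : V → H}
    (hF : ∀ u w, Ed S N u w → phi S N x u w = (F u)⁻¹ * F w) (hD : 2 + 5 * N ≤ D) (k : ℕ) :
    k + N ≤ D → ∀ v : V, Near S N k (pt (1 : G S)) v → ∀ g : G S,
      x (gam S N v) = (F (pt g))⁻¹ * F (pt (g * gam S N v)) := by
  induction k with
  | zero =>
    intro _ v hv g
    have e : pt (1 : G S) = v := hv
    rw [← e, gam_pt, hx.one, mul_one, inv_mul_cancel]
  | succ k ih =>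
    intro hk v hv g
    rcases hv with hv | ⟨u, h1, h2⟩
    · exact ih (by omega) v hv g
    · have hu := (h2.good hS).1
      have hv' := (h2.good hS).2
      have e1 := ih (by omega) u h1 g
      have hs : Near S N (1 + 2 * N) (pt (1 : G S)) (pt ((gam S N u)⁻¹ * gam S N v)) :=
        near_dif hS hu (near_one h2)
      have e2 := x_small hS hN hx hF (by omega) hs (g * gam S N u)
      have e3 : x (gam S N u) * x ((gam S N u)⁻¹ * gam S N v) = x (gam S N v) := by
        have := hx (gam S N u) ((gam S N u)⁻¹ * gam S N v)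
          ((h1.trans (near_gam hS hu)).mono (by omega)) (hs.mono (by omega))
          (by
            rw [mul_inv_cancel_left]
            exact ((h1.trans (near_one h2)).trans (near_gam hS hv')).mono (by omega))
        rwa [mul_inv_cancel_left] at this
      rw [← e3, e1, e2]
      have e4 : g * gam S N u * ((gam S N u)⁻¹ * gam S N v) = g * gam S N v := by group
      rw [e4]
      group

theorem x_all (hS : PS S) (hN : 1 ≤ N) (hx : Rel S N x D) {F : V → H}
    (hF : ∀ u w, Ed S N u w → phi S N x u w = (F u)⁻¹ * F w) (hD : 2 + 5 * N ≤ D)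
    {s : G S} (h : Near S N D (pt (1 : G S)) (pt s)) (g : G S) :
    x s = (F (pt g))⁻¹ * F (pt (g * s)) := by
  have hD' : D = (D - N) + N := by omega
  have h' := h
  rw [hD'] at h'
  obtain ⟨u, h1, h2⟩ := h'.split
  have hu : Good S N u := h1.good hS (good_pt hS hN 1)
  have e1 := x_gam hS hN hx hF hD (D - N) (by omega) u h1 g
  have hs : Near S N (N + 2 * N) (pt (1 : G S)) (pt ((gam S N u)⁻¹ * s)) := by
    have := near_dif hS hu h2
    rwa [gam_pt] at this
  have e2 := x_small hS hN hx hF (by omega) hs (g * gam S N u)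
  have e3 : x (gam S N u) * x ((gam S N u)⁻¹ * s) = x s := by
    have := hx (gam S N u) ((gam S N u)⁻¹ * s)
      ((h1.trans (near_gam hS hu)).mono (by omega)) (hs.mono (by omega))
      (by
        rw [mul_inv_cancel_left]
        exact h)
    rwa [mul_inv_cancel_left] at this
  rw [← e3, e1, e2]
  have e4 : g * gam S N u * ((gam S N u)⁻¹ * s) = g * s := by group
  rw [e4]
  group

end conn

theorem statRips (hS : PS S) : StatRips S := by
  intro hExt hPot hConn
  obtain ⟨N₀, hExt⟩ := hExt
  obtain ⟨N₁, hConn⟩ := hConn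
  obtain ⟨N, hN0, hN1, hN⟩ : ∃ N, N₀ ≤ N ∧ N₁ ≤ N ∧ 1 ≤ N :=
    ⟨N₀ + N₁ + 1, by omega, by omega, by omega⟩
  set D := 5 * N + S.sum id + 2 with hDdef
  have hD1 : 2 + 5 * N ≤ D := by omega
  have hD2 : ∀ p ∈ S, 1 + p + 2 * N ≤ D := by
    intro p hp
    have : id p ≤ S.sum id := Finset.single_le_sum (fun _ _ => Nat.zero_le _) hp
    simp only [id] at this hDdef
    omega
  have hfin := finite_sig (N := N) hS D
  refine fp_of hfin.toFinset ?_ ?_
  · rw [Set.Finite.coe_toFinset, eq_top_iff]
    intro g _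
    have h := hConn N hN1 (fun v => gam S N v ∈
        Subgroup.closure {g : G S | Near S N D (pt (1 : G S)) (pt g)}) ?_ (pt (1 : G S)) (pt g)
      (frame_pt hS 1) (frame_pt hS g) (by rw [card_pt]; exact hN) (by rw [card_pt]; exact hN)
    · simp only [gam_pt] at h
      exact h.1 (Subgroup.one_mem _)
    · intro v f p hv hf hp hc
      have hed := ed_split hv hf hp hc
      have h1 := near_dif hS (hed.good hS).1 (near_one (Or.inl hed))
      have h2 : (gam S N v)⁻¹ * gam S N (Pool.Agent.Run7.h341.CTF.split v f p) ∈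
          Subgroup.closure {g : G S | Near S N D (pt (1 : G S)) (pt g)} :=
        Subgroup.subset_closure (h1.mono (by omega))
      constructor
      · intro h
        have := Subgroup.mul_mem _ h h2
        rwa [mul_inv_cancel_left] at this
      · intro h
        have := Subgroup.mul_mem _ h (Subgroup.inv_mem _ h2)
        have e : gam S N (Pool.Agent.Run7.h341.CTF.split v f p) *
            ((gam S N v)⁻¹ * gam S N (Pool.Agent.Run7.h341.CTF.split v f p))⁻¹ = gam S N v := by
          group
        rwa [e] at this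
  · intro H _ x hx
    have hx' : Rel S N x D := by
      intro a b ha hb hab
      exact hx a (hfin.mem_toFinset.2 ha) b (hfin.mem_toFinset.2 hb) (hfin.mem_toFinset.2 hab)
    obtain ⟨φ', h1, h2, h3⟩ := hExt N hN0 H (phi S N x) (sqFlat hS hx' (by omega))
      (diFlat hS hx' hD2)
    obtain ⟨F, hF⟩ := hPot H φ' h2 h3
    have hF' : ∀ u w, Ed S N u w → phi S N x u w = (F u)⁻¹ * F w := by
      rintro u w ⟨f, p, hu, hf, hp, rfl, hc⟩
      rw [← h1 _ _ hc]
      exact hF u f p hu hf hp
    refine ⟨fun g => F (pt g), fun s hs g => ?_⟩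
    exact x_all hS hN hx' hF' hD1 (hfin.mem_toFinset.1 hs) g

end Pool.Agent.Run7.h587.CTF
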